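import Mathlib

/-! Roots with parameters: an abstract form. -/

set_option autoImplicit false

namespace Pool.Agent.H755.BT207

open Topology Filter Metric Set

/-- the fixed point -/
theorem core1 {E : Type*} [NormedAddCommGroup E] (M : ℕ) (hM : 2 ≤ M) (g : E → ℂ → ℂ)
    (H : E → ℂ → ℂ) {δ ρ₁ ε₁ : ℝ} (hρ₁ : 0 < ρ₁) (hρ₁1 : ρ₁ ≤ 1)
    (hpow : ∀ u : ℂ, ‖u - 1‖ ≤ ρ₁ → ‖u ^ (M - 1) - 1‖ ≤ 1 / 4)
    (hε1 : ε₁ ≤ ρ₁ / 4) (hε2 : 2 ^ (M - 1) * ε₁ ≤ 1 / 4) (hε0 : 0 ≤ ε₁)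
    (hg0 : ∀ s : E, ‖s‖ < δ → g s 0 = 0)
    (hgd : ∀ s : E, ‖s‖ < δ → ∀ t : ℂ, ‖t‖ < δ → HasDerivAt (g s) (t ^ (M - 1) * H s t) t)
    (hH0 : H 0 0 ≠ 0)
    (hA : ∀ s : E, ‖s‖ < δ → ∀ t : ℂ, ‖t‖ < δ → ‖H s t / H 0 0 - 1‖ ≤ ε₁)
    (T₀ Ts b : ℂ) (hT₀ : T₀ ≠ 0) (hb : b ^ M * (H 0 0 / M) = T₀) (hbδ : 2 * ‖b‖ < δ)
    (hTs : ‖Ts / T₀ - 1‖ ≤ ρ₁ / 4) (s : E) (hs : ‖s‖ < δ) :
    ∃ u : ℂ, ‖u - 1‖ ≤ ρ₁ ∧ g s (b * u) = Ts ∧
      ∀ u₁ u₂ : ℂ, ‖u₁ - 1‖ ≤ ρ₁ → ‖u₂ - 1‖ ≤ ρ₁ →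
        ‖(u₁ - (g s (b * u₁) - Ts) / (M * T₀)) - (u₂ - (g s (b * u₂) - Ts) / (M * T₀))‖ ≤
          1 / 2 * ‖u₁ - u₂‖ := by
  have hMC : (M : ℂ) ≠ 0 := by
    have : M ≠ 0 := by omega
    exact_mod_cast this
  have hbu : ∀ u : ℂ, ‖u‖ ≤ 2 → ‖b * u‖ < δ := by
    intro u hu
    rw [norm_mul]
    calc ‖b‖ * ‖u‖ ≤ ‖b‖ * 2 := mul_le_mul_of_nonneg_left hu (norm_nonneg _)
      _ = 2 * ‖b‖ := by ring
      _ < δ := hbδ
  have hu2 : ∀ u : ℂ, ‖u - 1‖ ≤ ρ₁ → ‖u‖ ≤ 2 := by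
    intro u hu
    have h1 : ‖u‖ ≤ ‖u - 1‖ + ‖(1 : ℂ)‖ := by
      have := norm_add_le (u - 1) 1
      rwa [sub_add_cancel] at this
    rw [norm_one] at h1
    linarith
  have hpM : M = M - 1 + 1 := by omega
  -- derivative of `u ↦ g s (b u) / T₀`
  have hG : ∀ u : ℂ, ‖u‖ ≤ 2 → HasDerivAt (fun u : ℂ => g s (b * u) / T₀)
      (M * u ^ (M - 1) * (H s (b * u) / H 0 0)) u := by
    intro u hu
    have h1 := hgd s hs (b * u) (hbu u hu)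
    have h2 : HasDerivAt (fun u : ℂ => b * u) b u := by
      simpa using (hasDerivAt_id u).const_mul b
    have h3 := (h1.comp u h2).div_const T₀
    refine h3.congr_deriv ?_
    rw [← hb, mul_pow]
    have h4 : b ≠ 0 := by
      intro h
      apply hT₀
      rw [← hb, h, zero_pow (by omega), zero_mul]
    have h5 : b ^ M = b ^ (M - 1) * b := by
      conv_lhs => rw [hpM]
      rw [pow_succ]
    rw [h5]
    field_simp
  set F : ℂ → ℂ := fun u => u - (g s (b * u) - Ts) / (M * T₀) with hF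
  have hFd : ∀ u : ℂ, ‖u‖ ≤ 2 → HasDerivAt F (1 - u ^ (M - 1) * (H s (b * u) / H 0 0)) u := by
    intro u hu
    have h1 := (((hG u hu).sub_const (Ts / T₀)).div_const (M : ℂ))
    have h2 := (hasDerivAt_id u).sub h1
    have e : F = fun u => id u - (g s (b * u) / T₀ - Ts / T₀) / M := by
      funext v
      rw [hF]
      simp only [id]
      field_simp
    rw [e]
    refine h2.congr_deriv ?_
    field_simp
  have hcontr : ∀ u₁ u₂ : ℂ, ‖u₁ - 1‖ ≤ ρ₁ → ‖u₂ - 1‖ ≤ ρ₁ → ‖F u₁ - F u₂‖ ≤ 1 / 2 * ‖u₁ - u₂‖ := by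
    intro u₁ u₂ h₁ h₂
    have hc : Convex ℝ (closedBall (1 : ℂ) ρ₁) := convex_closedBall _ _
    refine hc.norm_image_sub_le_of_norm_hasDerivWithin_le (𝕜 := ℂ) (f := F)
      (f' := fun u => 1 - u ^ (M - 1) * (H s (b * u) / H 0 0)) ?_ ?_ ?_ ?_
    · intro u hu
      rw [mem_closedBall_iff_norm] at hu
      exact (hFd u (hu2 u hu)).hasDerivWithinAt
    · intro u hu
      rw [mem_closedBall_iff_norm] at hu
      have h3 := hA s hs (b * u) (hbu u (hu2 u hu))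
      have h4 := hpow u hu
      have e : 1 - u ^ (M - 1) * (H s (b * u) / H 0 0) =
          -(u ^ (M - 1) - 1) - u ^ (M - 1) * (H s (b * u) / H 0 0 - 1) := by ring
      rw [e]
      refine (norm_sub_le _ _).trans ?_
      rw [norm_neg, norm_mul, norm_pow]
      have h5 : ‖u‖ ^ (M - 1) ≤ 2 ^ (M - 1) := pow_le_pow_left₀ (norm_nonneg _) (hu2 u hu) _
      have h6 : ‖u‖ ^ (M - 1) * ‖H s (b * u) / H 0 0 - 1‖ ≤ 2 ^ (M - 1) * ε₁ :=
        mul_le_mul h5 h3 (norm_nonneg _) (by positivity)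
      linarith
    · rw [mem_closedBall_iff_norm]; exact h₂
    · rw [mem_closedBall_iff_norm]; exact h₁
  -- the value at one
  have hD : ‖g s (b * 1) / T₀ - 1‖ ≤ M * ε₁ := by
    have hc : Convex ℝ (closedBall (0 : ℂ) 1) := convex_closedBall _ _
    have h1 := hc.norm_image_sub_le_of_norm_hasDerivWithin_le (𝕜 := ℂ)
      (f := fun u : ℂ => g s (b * u) / T₀ - u ^ M)
      (f' := fun u => M * u ^ (M - 1) * (H s (b * u) / H 0 0) - M * u ^ (M - 1)) (C := M * ε₁)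
      (x := 0) (y := 1) ?_ ?_ (by simp) (by simp)
    · have h0 : g s (b * 0) = 0 := by rw [mul_zero]; exact hg0 s hs
      rw [h0, zero_div, zero_pow (by omega), sub_zero, sub_zero, sub_zero, norm_one,
        one_pow] at h1
      exact h1.trans (le_of_eq (mul_one _))
    · intro u hu
      rw [mem_closedBall_zero_iff] at hu
      exact ((hG u (by linarith)).sub (hasDerivAt_pow M u)).hasDerivWithinAt
    · intro u hu
      rw [mem_closedBall_zero_iff] at hu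
      have h3 := hA s hs (b * u) (hbu u (by linarith))
      have e : (M : ℂ) * u ^ (M - 1) * (H s (b * u) / H 0 0) - M * u ^ (M - 1) =
          M * (u ^ (M - 1) * (H s (b * u) / H 0 0 - 1)) := by ring
      rw [e, norm_mul, norm_mul, norm_pow, Complex.norm_natCast]
      have h5 : ‖u‖ ^ (M - 1) ≤ 1 := pow_le_one₀ (norm_nonneg _) hu
      have h6 : ‖u‖ ^ (M - 1) * ‖H s (b * u) / H 0 0 - 1‖ ≤ 1 * ε₁ :=
        mul_le_mul h5 h3 (norm_nonneg _) (by norm_num)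
      rw [one_mul] at h6
      exact mul_le_mul_of_nonneg_left h6 (Nat.cast_nonneg _)
  have hM1 : (1 : ℝ) ≤ M := by
    have : 1 ≤ M := by omega
    exact_mod_cast this
  have hF1 : ‖F 1 - 1‖ ≤ ρ₁ / 2 := by
    have e : F 1 - 1 = -(((g s (b * 1) / T₀ - 1) - (Ts / T₀ - 1)) / M) := by
      rw [hF]
      simp only
      field_simp
      ring
    rw [e, norm_neg, norm_div, Complex.norm_natCast, div_le_iff₀ (by linarith)]
    refine (norm_sub_le _ _).trans ?_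
    nlinarith
  have hmaps : MapsTo F (closedBall (1 : ℂ) ρ₁) (closedBall (1 : ℂ) ρ₁) := by
    intro u hu
    rw [mem_closedBall_iff_norm] at hu ⊢
    have h1 := hcontr u 1 hu (by simpa using hρ₁.le)
    have h2 : ‖F u - 1‖ ≤ ‖F u - F 1‖ + ‖F 1 - 1‖ := norm_sub_le_norm_sub_add_norm_sub _ _ _
    linarith
  have hcw : ContractingWith (1 / 2) (hmaps.restrict F (closedBall (1 : ℂ) ρ₁) (closedBall (1 : ℂ) ρ₁)) := by
    refine ⟨?_, LipschitzWith.of_dist_le_mul fun a b => ?_⟩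
    · rw [← NNReal.coe_lt_coe]
      norm_num
    · rw [Subtype.dist_eq, Subtype.dist_eq, dist_eq_norm, dist_eq_norm]
      have h1 := a.2
      have h2 := b.2
      rw [mem_closedBall_iff_norm] at h1 h2
      have := hcontr a.1 b.1 h1 h2
      simpa using this
  obtain ⟨u, hu, hfix, -⟩ := hcw.exists_fixedPoint' (isClosed_closedBall.isComplete) hmaps
    (x := 1) (mem_closedBall_self hρ₁.le) (edist_ne_top _ _)
  refine ⟨u, by rwa [mem_closedBall_iff_norm] at hu, ?_, hcontr⟩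
  have h1 : F u = u := hfix
  rw [hF] at h1
  simp only at h1
  have h2 : (g s (b * u) - Ts) / (M * T₀) = 0 := by
    have h3 : (g s (b * u) - Ts) / (M * T₀) = u - (u - (g s (b * u) - Ts) / (M * T₀)) := by ring
    rw [h3, h1, sub_self]
  rcases div_eq_zero_iff.1 h2 with h3 | h3
  · exact sub_eq_zero.1 h3
  · exact absurd h3 (mul_ne_zero hMC hT₀)

/-- one branch -/
theorem core2 {E : Type*} [NormedAddCommGroup E] (M : ℕ) (hM : 2 ≤ M) (g : E → ℂ → ℂ)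
    (H : E → ℂ → ℂ) {δ ρ₁ ε₁ L : ℝ} (hL : 0 ≤ L) (hρ₁ : 0 < ρ₁) (hρ₁1 : ρ₁ ≤ 1)
    (hpow : ∀ u : ℂ, ‖u - 1‖ ≤ ρ₁ → ‖u ^ (M - 1) - 1‖ ≤ 1 / 4)
    (hε1 : ε₁ ≤ ρ₁ / 4) (hε2 : 2 ^ (M - 1) * ε₁ ≤ 1 / 4) (hε0 : 0 ≤ ε₁)
    (hg0 : ∀ s : E, ‖s‖ < δ → g s 0 = 0)
    (hgd : ∀ s : E, ‖s‖ < δ → ∀ t : ℂ, ‖t‖ < δ → HasDerivAt (g s) (t ^ (M - 1) * H s t) t)
    (hH0 : H 0 0 ≠ 0)
    (hA : ∀ s : E, ‖s‖ < δ → ∀ t : ℂ, ‖t‖ < δ → ‖H s t / H 0 0 - 1‖ ≤ ε₁)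
    (hgl : ∀ s : E, ‖s‖ < δ → ∀ s' : E, ‖s'‖ < δ → ∀ t : ℂ, ‖t‖ < δ →
      ‖g s t - g s' t‖ ≤ L * ‖s - s'‖)
    (T : E → ℂ) {y r K β : ℝ} (hy : 0 < y) (hyT : y ^ M = ‖T 0‖) (hr : 0 < r) (hrδ : r ≤ δ)
    (hK : 1 ≤ K) (hKr : K * r ≤ ρ₁ / 4 * y ^ M)
    (hT : ∀ s ∈ ball (0 : E) r, ∀ s' ∈ ball (0 : E) r, ‖T s - T s'‖ ≤ K * ‖s - s'‖)
    (b : ℂ) (hb : b ^ M * (H 0 0 / M) = T 0) (hbβ : ‖b‖ = β * y) (hβ : 0 < β)
    (hbδ : 2 * (β * y) < δ) :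
    ∃ u : E → ℂ, (∀ s ∈ ball (0 : E) r, ‖u s - 1‖ ≤ ρ₁ ∧ g s (b * u s) = T s) ∧
      ∀ s ∈ ball (0 : E) r, ∀ s' ∈ ball (0 : E) r,
        y ^ (M - 1) * ‖b * u s - b * u s'‖ ≤ 2 * β * (L + 1) * K * ‖s - s'‖ := by
  have hyM : 0 < y ^ M := by positivity
  have hT0 : T 0 ≠ 0 := by
    intro h
    rw [h, norm_zero] at hyT
    exact hyM.ne' hyT
  have h0r : (0 : E) ∈ ball (0 : E) r := mem_ball_self hr
  have hex : ∀ s : E, s ∈ ball (0 : E) r → ∃ u : ℂ, ‖u - 1‖ ≤ ρ₁ ∧ g s (b * u) = T s ∧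
      ∀ u₁ u₂ : ℂ, ‖u₁ - 1‖ ≤ ρ₁ → ‖u₂ - 1‖ ≤ ρ₁ →
        ‖(u₁ - (g s (b * u₁) - T s) / (M * T 0)) - (u₂ - (g s (b * u₂) - T s) / (M * T 0))‖ ≤
          1 / 2 * ‖u₁ - u₂‖ := by
    intro s hs
    have hs' : ‖s‖ < r := by rwa [mem_ball_zero_iff] at hs
    refine core1 M hM g H hρ₁ hρ₁1 hpow hε1 hε2 hε0 hg0 hgd hH0 hA (T 0) (T s) b hT0 hb
      (by rw [hbβ]; exact hbδ) ?_ s (by linarith)
    have e : T s / T 0 - 1 = (T s - T 0) / T 0 := by field_simp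
    rw [e, norm_div, ← hyT, div_le_iff₀ hyM]
    have h1 := hT s hs 0 h0r
    rw [sub_zero] at h1
    have h2 : K * ‖s‖ ≤ K * r := mul_le_mul_of_nonneg_left hs'.le (by linarith)
    linarith
  choose! u hu using hex
  refine ⟨u, fun s hs => ⟨(hu s hs).1, (hu s hs).2.1⟩, ?_⟩
  intro s hs s' hs'
  obtain ⟨h1, h2, h3⟩ := hu s hs
  obtain ⟨h1', h2', -⟩ := hu s' hs'
  have hsδ : ‖s‖ < δ := by rw [mem_ball_zero_iff] at hs; linarith
  have hsδ' : ‖s'‖ < δ := by rw [mem_ball_zero_iff] at hs'; linarith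
  have hM1 : (1 : ℝ) ≤ M := by
    have : 1 ≤ M := by omega
    exact_mod_cast this
  -- difference of the fixed points
  have h4 := h3 (u s) (u s') h1 h1'
  rw [h2, sub_self, zero_div, sub_zero] at h4
  have h5 : ‖b * u s'‖ < δ := by
    rw [norm_mul, hbβ]
    have h6 : ‖u s'‖ ≤ 2 := by
      have h7 : ‖u s'‖ ≤ ‖u s' - 1‖ + ‖(1 : ℂ)‖ := by
        have := norm_add_le (u s' - 1) 1
        rwa [sub_add_cancel] at this
      rw [norm_one] at h7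
      linarith
    calc β * y * ‖u s'‖ ≤ β * y * 2 := mul_le_mul_of_nonneg_left h6 (by positivity)
      _ = 2 * (β * y) := by ring
      _ < δ := hbδ
  have h6 := hgl s hsδ s' hsδ' _ h5
  have h7 := hT s hs s' hs'
  have h8 : ‖g s (b * u s') - T s‖ ≤ (L + K) * ‖s - s'‖ := by
    have e : g s (b * u s') - T s = (g s (b * u s') - g s' (b * u s')) - (T s - T s') := by
      rw [h2']; ring
    rw [e]
    refine (norm_sub_le _ _).trans ?_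
    linarith
  have h9 : ‖u s - u s'‖ ≤ 2 * ((L + K) * ‖s - s'‖ / y ^ M) := by
    have e : u s - u s' = (u s - (u s' - (g s (b * u s') - T s) / (M * T 0))) -
        (g s (b * u s') - T s) / (M * T 0) := by ring
    have h10 : ‖(g s (b * u s') - T s) / (M * T 0)‖ ≤ (L + K) * ‖s - s'‖ / y ^ M := by
      rw [norm_div, norm_mul, Complex.norm_natCast, ← hyT]
      have h11 : y ^ M ≤ M * y ^ M := by nlinarith
      have h12 : 0 ≤ (L + K) * ‖s - s'‖ := by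
        have : 0 ≤ L + K := by linarith
        positivity
      exact div_le_div₀ h12 h8 hyM h11
    have h11 : ‖u s - u s'‖ ≤ 1 / 2 * ‖u s - u s'‖ + (L + K) * ‖s - s'‖ / y ^ M := by
      calc ‖u s - u s'‖ = ‖(u s - (u s' - (g s (b * u s') - T s) / (M * T 0))) -
            (g s (b * u s') - T s) / (M * T 0)‖ := by rw [← e]
        _ ≤ _ := (norm_sub_le _ _).trans (add_le_add h4 h10)
    linarith
  rw [← mul_sub, norm_mul, hbβ]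
  have hyy : y ^ (M - 1) * y = y ^ M := by
    rw [← pow_succ]
    congr 1
    omega
  calc y ^ (M - 1) * (β * y * ‖u s - u s'‖) = β * (y ^ M * ‖u s - u s'‖) := by rw [← hyy]; ring
    _ ≤ β * (y ^ M * (2 * ((L + K) * ‖s - s'‖ / y ^ M))) := by gcongr
    _ = 2 * β * (L + K) * ‖s - s'‖ := by field_simp
    _ ≤ 2 * β * (L + 1) * K * ‖s - s'‖ := by
      have : L + K ≤ (L + 1) * K := by nlinarith
      have h12 : 0 ≤ 2 * β * ‖s - s'‖ := by positivity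
      nlinarith

/-- **Roots with parameters.** -/
theorem abs_root {E : Type*} [NormedAddCommGroup E] (M : ℕ) (hM : 2 ≤ M) (g : E → ℂ → ℂ)
    (H : E → ℂ → ℂ) (R L : ℝ) (hR : 0 < R) (hL : 0 ≤ L)
    (hg0 : ∀ s ∈ ball (0 : E) R, g s 0 = 0)
    (hgd : ∀ s ∈ ball (0 : E) R, ∀ t ∈ ball (0 : ℂ) R, HasDerivAt (g s) (t ^ (M - 1) * H s t) t)
    (hHc : ContinuousAt (fun q : E × ℂ => H q.1 q.2) (0, 0)) (hH0 : H 0 0 ≠ 0)
    (hgl : ∀ s ∈ ball (0 : E) R, ∀ s' ∈ ball (0 : E) R, ∀ t ∈ ball (0 : ℂ) R,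
      ‖g s t - g s' t‖ ≤ L * ‖s - s'‖) :
    ∃ η > (0 : ℝ), η ≤ R ∧ ∃ B ≥ (1 : ℝ), ∀ (T : E → ℂ) (y r K : ℝ) (z : ℂ), 0 < y → y ≤ η →
      y ^ M = ‖T 0‖ → 0 < r → 1 ≤ K → B * K * r ≤ y ^ M →
      (∀ s ∈ ball (0 : E) r, ∀ s' ∈ ball (0 : E) r, ‖T s - T s'‖ ≤ K * ‖s - s'‖) →
      ∃ t : E → ℂ, y ≤ B * ‖t 0 - z‖ ∧
        (∀ s ∈ ball (0 : E) r, ∀ s' ∈ ball (0 : E) r,
          y ^ (M - 1) * ‖t s - t s'‖ ≤ B * K * ‖s - s'‖) ∧
        ∀ s ∈ ball (0 : E) r, ‖s‖ < η ∧ t s ≠ 0 ∧ ‖t s‖ ≤ B * y ∧ ‖t s‖ < R ∧ g s (t s) = T s := by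
  have hM0 : M ≠ 0 := by omega
  have hMC : (M : ℂ) ≠ 0 := by exact_mod_cast hM0
  set ω : ℂ := Complex.exp (2 * Real.pi * Complex.I / M) with hω
  have hprim : IsPrimitiveRoot ω M := Complex.isPrimitiveRoot_exp M hM0
  have hω1 : ω ≠ 1 := hprim.ne_one (by omega)
  have hωM : ω ^ M = 1 := hprim.pow_eq_one
  have hωn : ‖ω‖ = 1 := Complex.norm_eq_one_of_pow_eq_one hωM hM0
  set dω : ℝ := ‖1 - ω‖ with hdω
  have hdω0 : 0 < dω := norm_pos_iff.2 (sub_ne_zero.2 hω1.symm)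
  -- the radius for the power
  obtain ⟨ρ₀, hρ₀, hpow0⟩ : ∃ ρ₀ > (0 : ℝ), ∀ u : ℂ, ‖u - 1‖ < ρ₀ → ‖u ^ (M - 1) - 1‖ ≤ 1 / 4 := by
    have hc : ContinuousAt (fun u : ℂ => u ^ (M - 1)) 1 := by fun_prop
    obtain ⟨ρ₀, hρ₀, h⟩ := Metric.continuousAt_iff.1 hc (1 / 4) (by norm_num)
    refine ⟨ρ₀, hρ₀, fun u hu => ?_⟩
    have := h (by rw [dist_eq_norm]; exact hu)
    rw [one_pow, dist_eq_norm] at this
    exact this.le
  set ρ₁ : ℝ := min (min 1 (ρ₀ / 2)) (min (dω / 4) (1 / 2)) with hρ₁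
  have hρ₁0 : 0 < ρ₁ := lt_min (lt_min one_pos (by linarith)) (lt_min (by linarith) (by norm_num))
  have hρ₁1 : ρ₁ ≤ 1 := (min_le_left _ _).trans (min_le_left _ _)
  have hρ₁2 : ρ₁ ≤ ρ₀ / 2 := (min_le_left _ _).trans (min_le_right _ _)
  have hρ₁3 : ρ₁ ≤ dω / 4 := (min_le_right _ _).trans (min_le_left _ _)
  have hρ₁4 : ρ₁ ≤ 1 / 2 := (min_le_right _ _).trans (min_le_right _ _)
  have hpow : ∀ u : ℂ, ‖u - 1‖ ≤ ρ₁ → ‖u ^ (M - 1) - 1‖ ≤ 1 / 4 := fun u hu =>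
    hpow0 u (by linarith)
  set ε₁ : ℝ := min (ρ₁ / 4) (1 / (4 * 2 ^ (M - 1))) with hε₁
  have hε0 : 0 < ε₁ := lt_min (by linarith) (by positivity)
  have hε1 : ε₁ ≤ ρ₁ / 4 := min_le_left _ _
  have hε2 : 2 ^ (M - 1) * ε₁ ≤ 1 / 4 := by
    have h1 : ε₁ ≤ 1 / (4 * 2 ^ (M - 1)) := min_le_right _ _
    calc (2 : ℝ) ^ (M - 1) * ε₁ ≤ 2 ^ (M - 1) * (1 / (4 * 2 ^ (M - 1))) :=
          mul_le_mul_of_nonneg_left h1 (by positivity)
      _ = 1 / 4 := by field_simp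
  -- continuity of `H`
  obtain ⟨δ₀, hδ₀, hδc⟩ : ∃ δ₀ > (0 : ℝ), ∀ s : E, ‖s‖ < δ₀ → ∀ t : ℂ, ‖t‖ < δ₀ →
      ‖H s t / H 0 0 - 1‖ ≤ ε₁ := by
    have hc : ContinuousAt (fun q : E × ℂ => H q.1 q.2 / H 0 0) (0, 0) := hHc.div_const _
    obtain ⟨δ₀, hδ₀, h⟩ := Metric.continuousAt_iff.1 hc ε₁ hε0
    refine ⟨δ₀, hδ₀, fun s hs t ht => ?_⟩
    have h1 : dist ((s, t) : E × ℂ) (0, 0) < δ₀ := by
      rw [Prod.dist_eq, dist_zero_right, dist_zero_right]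
      exact max_lt hs ht
    have h2 := h h1
    simp only [dist_eq_norm, div_self hH0] at h2
    exact h2.le
  set δ : ℝ := min R δ₀ with hδ
  have hδ0 : 0 < δ := lt_min hR hδ₀
  have hδR : δ ≤ R := min_le_left _ _
  have hδδ : δ ≤ δ₀ := min_le_right _ _
  -- the constant
  set c0 : ℝ := ‖H 0 0 / M‖ with hc0
  have hc00 : 0 < c0 := norm_pos_iff.2 (div_ne_zero hH0 hMC)
  set β : ℝ := (c0⁻¹) ^ ((M : ℝ)⁻¹) with hβ
  have hβ0 : 0 < β := Real.rpow_pos_of_pos (inv_pos.2 hc00) _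
  have hβM : β ^ M = c0⁻¹ := Real.rpow_inv_natCast_pow (inv_pos.2 hc00).le hM0
  set η : ℝ := min 1 (δ / (4 * (β + 1))) with hη
  have hη0 : 0 < η := lt_min one_pos (by positivity)
  have hη1 : η ≤ 1 := min_le_left _ _
  have hη2 : η ≤ δ / (4 * (β + 1)) := min_le_right _ _
  have hηδ : 4 * (β + 1) * η ≤ δ := by
    rw [le_div_iff₀ (by positivity)] at hη2
    linarith
  set B : ℝ := 1 + 4 / ρ₁ + 2 * β + 2 * β * (L + 1) + 4 / (β * dω) with hB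
  have hB1 : 4 / ρ₁ ≤ B := by
    have : 0 ≤ 1 + 2 * β + 2 * β * (L + 1) + 4 / (β * dω) := by positivity
    linarith
  have hB2 : 2 * β ≤ B := by
    have : 0 ≤ 1 + 4 / ρ₁ + 2 * β * (L + 1) + 4 / (β * dω) := by positivity
    linarith
  have hB3 : 2 * β * (L + 1) ≤ B := by
    have : 0 ≤ 1 + 4 / ρ₁ + 2 * β + 4 / (β * dω) := by positivity
    linarith
  have hB4 : 4 / (β * dω) ≤ B := by
    have : 0 ≤ 1 + 4 / ρ₁ + 2 * β + 2 * β * (L + 1) := by positivity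
    linarith
  have hB0 : 1 ≤ B := by
    have : 0 ≤ 4 / ρ₁ + 2 * β + 2 * β * (L + 1) + 4 / (β * dω) := by positivity
    linarith
  have hηδ4 : 4 * (β * η) + 4 * η ≤ δ := by
    have e1 : 4 * (β + 1) * η = 4 * (β * η) + 4 * η := by ring
    linarith
  have hβη : 0 < β * η := mul_pos hβ0 hη0
  clear_value B η β c0 δ ε₁ ρ₁ dω
  refine ⟨η, hη0, by linarith, B, hB0, ?_⟩
  intro T y r K z hy hyη hyT hr hK hBKr hT
  have hyM : 0 < y ^ M := by positivity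
  have hyMy : y ^ M ≤ y := by
    calc y ^ M ≤ y ^ 1 := pow_le_pow_of_le_one hy.le (by linarith) (by omega)
      _ = y := pow_one y
  have hKr0 : K * r ≤ y ^ M := by
    have : 1 * (K * r) ≤ B * (K * r) := mul_le_mul_of_nonneg_right hB0 (by positivity)
    linarith
  have hrη : r ≤ η := by
    have h1 : 1 * r ≤ K * r := mul_le_mul_of_nonneg_right hK hr.le
    linarith
  have hKr1 : K * r ≤ ρ₁ / 4 * y ^ M := by
    have h1 : 4 / ρ₁ * (K * r) ≤ B * (K * r) := mul_le_mul_of_nonneg_right hB1 (by positivity)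
    have h2 : 4 / ρ₁ * (K * r) ≤ y ^ M := by linarith
    rw [div_mul_eq_mul_div, div_le_iff₀ hρ₁0] at h2
    linarith
  have hbδ : 2 * (β * y) < δ := by
    have h1 : β * y ≤ β * η := mul_le_mul_of_nonneg_left hyη hβ0.le
    linarith
  obtain ⟨b, hb⟩ := IsAlgClosed.exists_pow_nat_eq (T 0 / (H 0 0 / M)) (show 0 < M by omega)
  have hHM : H 0 0 / M ≠ 0 := div_ne_zero hH0 hMC
  have hb' : b ^ M * (H 0 0 / M) = T 0 := by rw [hb, div_mul_cancel₀ _ hHM]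
  have hbβ : ‖b‖ = β * y := by
    have h1 : ‖b‖ ^ M = (β * y) ^ M := by
      rw [← norm_pow, hb, norm_div, ← hyT, mul_pow, hβM, ← hc0]
      field_simp
    exact (pow_left_inj₀ (norm_nonneg _) (by positivity) hM0).1 h1
  have hbω : (b * ω) ^ M * (H 0 0 / M) = T 0 := by rw [mul_pow, hωM, mul_one]; exact hb'
  have hbωβ : ‖b * ω‖ = β * y := by rw [norm_mul, hωn, mul_one]; exact hbβ
  have hg0' : ∀ s : E, ‖s‖ < δ → g s 0 = 0 := fun s hs =>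
    hg0 s (by rw [mem_ball_zero_iff]; linarith)
  have hgd' : ∀ s : E, ‖s‖ < δ → ∀ t : ℂ, ‖t‖ < δ → HasDerivAt (g s) (t ^ (M - 1) * H s t) t :=
    fun s hs t ht => hgd s (by rw [mem_ball_zero_iff]; linarith) t
      (by rw [mem_ball_zero_iff]; linarith)
  have hA : ∀ s : E, ‖s‖ < δ → ∀ t : ℂ, ‖t‖ < δ → ‖H s t / H 0 0 - 1‖ ≤ ε₁ :=
    fun s hs t ht => hδc s (by linarith) t (by linarith)
  have hgl' : ∀ s : E, ‖s‖ < δ → ∀ s' : E, ‖s'‖ < δ → ∀ t : ℂ, ‖t‖ < δ →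
      ‖g s t - g s' t‖ ≤ L * ‖s - s'‖ := fun s hs s' hs' t ht =>
    hgl s (by rw [mem_ball_zero_iff]; linarith) s' (by rw [mem_ball_zero_iff]; linarith) t
      (by rw [mem_ball_zero_iff]; linarith)
  have hrδ : r ≤ δ := by linarith
  have main : ∀ b : ℂ, b ^ M * (H 0 0 / M) = T 0 → ‖b‖ = β * y → ∃ u : E → ℂ,
      (∀ s ∈ ball (0 : E) r, ‖u s - 1‖ ≤ ρ₁ ∧ g s (b * u s) = T s) ∧
      ∀ s ∈ ball (0 : E) r, ∀ s' ∈ ball (0 : E) r,
        y ^ (M - 1) * ‖b * u s - b * u s'‖ ≤ 2 * β * (L + 1) * K * ‖s - s'‖ := fun b h1 h2 =>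
    core2 M hM g H hL hρ₁0 hρ₁1 hpow hε1 hε2 hε0.le hg0' hgd' hH0 hA hgl' T hy hyT hr hrδ hK
      hKr1 hT b h1 h2 hβ0 hbδ
  have fin : ∀ (b : ℂ) (u : E → ℂ), ‖b‖ = β * y →
      (∀ s ∈ ball (0 : E) r, ‖u s - 1‖ ≤ ρ₁ ∧ g s (b * u s) = T s) →
      (∀ s ∈ ball (0 : E) r, ∀ s' ∈ ball (0 : E) r,
        y ^ (M - 1) * ‖b * u s - b * u s'‖ ≤ 2 * β * (L + 1) * K * ‖s - s'‖) →
      y ≤ B * ‖b * u 0 - z‖ → ∃ t : E → ℂ, y ≤ B * ‖t 0 - z‖ ∧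
        (∀ s ∈ ball (0 : E) r, ∀ s' ∈ ball (0 : E) r,
          y ^ (M - 1) * ‖t s - t s'‖ ≤ B * K * ‖s - s'‖) ∧
        ∀ s ∈ ball (0 : E) r, ‖s‖ < η ∧ t s ≠ 0 ∧ ‖t s‖ ≤ B * y ∧ ‖t s‖ < R ∧ g s (t s) = T s := by
    intro b u h1 h2 h3 h4
    refine ⟨fun s => b * u s, h4, ?_, ?_⟩
    · intro s hs s' hs'
      refine (h3 s hs s' hs').trans ?_
      have h5 : 0 ≤ K * ‖s - s'‖ := by positivity
      calc 2 * β * (L + 1) * K * ‖s - s'‖ = (2 * β * (L + 1)) * (K * ‖s - s'‖) := by ring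
        _ ≤ B * (K * ‖s - s'‖) := mul_le_mul_of_nonneg_right hB3 h5
        _ = B * K * ‖s - s'‖ := by ring
    · intro s hs
      obtain ⟨h5, h6⟩ := h2 s hs
      have h7 : ‖u s‖ ≤ 2 := by
        have h8 : ‖u s‖ ≤ ‖u s - 1‖ + ‖(1 : ℂ)‖ := by
          have := norm_add_le (u s - 1) 1
          rwa [sub_add_cancel] at this
        rw [norm_one] at h8
        linarith
      have h8 : ‖b * u s‖ ≤ 2 * (β * y) := by
        rw [norm_mul, h1]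
        have := mul_le_mul_of_nonneg_left h7 (show 0 ≤ β * y by positivity)
        linarith
      refine ⟨?_, ?_, ?_, ?_, h6⟩
      · rw [mem_ball_zero_iff] at hs
        linarith
      · refine mul_ne_zero ?_ ?_
        · rw [← norm_pos_iff, h1]
          positivity
        · intro h9
          rw [h9, zero_sub, norm_neg, norm_one] at h5
          linarith
      · refine h8.trans ?_
        calc 2 * (β * y) = (2 * β) * y := by ring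
          _ ≤ B * y := mul_le_mul_of_nonneg_right hB2 hy.le
      · linarith
  obtain ⟨u, hu1, hu2⟩ := main b hb' hbβ
  obtain ⟨u', hu1', hu2'⟩ := main (b * ω) hbω hbωβ
  by_cases hz : y ≤ B * ‖b * u 0 - z‖
  · exact fin b u hbβ hu1 hu2 hz
  · refine fin (b * ω) u' hbωβ hu1' hu2' ?_
    push Not at hz
    by_contra hz'
    push Not at hz'
    have h0r : (0 : E) ∈ ball (0 : E) r := mem_ball_self hr
    have h1 := (hu1 0 h0r).1
    have h2 := (hu1' 0 h0r).1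
    have h3 : ‖b * u 0 - b * ω * u' 0‖ ≤ ‖b * u 0 - z‖ + ‖b * ω * u' 0 - z‖ := by
      have e : b * u 0 - b * ω * u' 0 = (b * u 0 - z) - (b * ω * u' 0 - z) := by ring
      rw [e]
      exact norm_sub_le _ _
    have h4 : β * y * (dω / 2) ≤ ‖b * u 0 - b * ω * u' 0‖ := by
      have e : b * u 0 - b * ω * u' 0 = b * (u 0 - ω * u' 0) := by ring
      rw [e, norm_mul, hbβ]
      refine mul_le_mul_of_nonneg_left ?_ (by positivity)
      have e2 : (1 : ℂ) - ω = (u 0 - ω * u' 0) - (u 0 - 1) + ω * (u' 0 - 1) := by ring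
      have h5 : dω ≤ ‖u 0 - ω * u' 0‖ + ‖u 0 - 1‖ + ‖ω * (u' 0 - 1)‖ := by
        rw [hdω, e2]
        refine (norm_add_le _ _).trans (add_le_add_left (norm_sub_le _ _) _)
      rw [norm_mul, hωn, one_mul] at h5
      linarith
    have h5 : B * (β * y * (dω / 2)) < 2 * y := by
      calc B * (β * y * (dω / 2)) ≤ B * (‖b * u 0 - z‖ + ‖b * ω * u' 0 - z‖) :=
            mul_le_mul_of_nonneg_left (h4.trans h3) (by linarith)
        _ = B * ‖b * u 0 - z‖ + B * ‖b * ω * u' 0 - z‖ := by ring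
        _ < 2 * y := by linarith
    have h6 : 4 / (β * dω) * (β * y * (dω / 2)) ≤ B * (β * y * (dω / 2)) :=
      mul_le_mul_of_nonneg_right hB4 (by positivity)
    have h7 : 4 / (β * dω) * (β * y * (dω / 2)) = 2 * y := by field_simp; ring
    linarith

end Pool.Agent.H755.BT207
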