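import Pool.Agent.H207.BT.Stm
import Pool.Agent.H295.HY211.DIST
import Pool.Agent.H755.BT207.Abs

/-! BT ROOT: preimages near a critical point. -/

set_option autoImplicit false

open Topology Filter Metric Set MeasureTheory Polynomial

namespace Pool.Agent.H755.BT207

open Pool.Agent.H790R3.RB Pool.Agent.H211.HY Pool.Agent.H295.HY211

section small

variable {E : Type*} [NormedAddCommGroup E] [NormedSpace ℂ E]

theorem iot_diff (τ : Bool) {f : E → ℂ} {x : E} (hf : DifferentiableAt ℂ f x) :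
    DifferentiableAt ℂ (fun y => iot τ (f y)) x := by
  cases τ
  · have e : (fun y => iot false (f y)) = fun y => ((1 : ℂ), f y) := rfl
    rw [e]
    exact (differentiableAt_const _).prodMk hf
  · have e : (fun y => iot true (f y)) = fun y => (f y, (1 : ℂ)) := rfl
    rw [e]
    exact hf.prodMk (differentiableAt_const _)

theorem dn_diff (τ : Bool) {f : E → ℂ × ℂ} {x : E} (hf : DifferentiableAt ℂ f x) :
    DifferentiableAt ℂ (fun y => dn τ (f y)) x := by
  cases τ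
  · have e : (fun y => dn false (f y)) = fun y => (f y).1 := by
      funext y; simp [dn]
    rw [e]
    exact hf.fst
  · have e : (fun y => dn true (f y)) = fun y => (f y).2 := by
      funext y; simp [dn]
    rw [e]
    exact hf.snd

theorem lc_diff (τ : Bool) {f : E → ℂ × ℂ} {x : E} (hf : DifferentiableAt ℂ f x)
    (h : dn τ (f x) ≠ 0) : DifferentiableAt ℂ (fun y => lc τ (f y)) x := by
  cases τ
  · have e : (fun y => lc false (f y)) = fun y => (f y).2 * ((f y).1)⁻¹ := by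
      funext y; simp [lc, div_eq_mul_inv]
    rw [e]
    simp only [dn, Bool.false_eq_true, if_false] at h
    exact hf.snd.mul (hf.fst.inv h)
  · have e : (fun y => lc true (f y)) = fun y => (f y).1 * ((f y).2)⁻¹ := by
      funext y; simp [lc, div_eq_mul_inv]
    rw [e]
    simp only [dn, if_true] at h
    exact hf.fst.mul (hf.snd.inv h)

end small

theorem cr_iot (τ : Bool) (z c : ℂ) (h : dn τ (c, 1) ≠ 0) :
    cr (iot τ z) (c, 1) = sg τ * dn τ (c, 1) * (z - lc τ (c, 1)) := by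
  cases τ
  · simp only [dn, Bool.false_eq_true, if_false] at h
    simp only [cr, iot, sg, dn, lc, Bool.false_eq_true, if_false]
    field_simp
    ring
  · simp [cr, iot, sg, dn, lc]

theorem cr_lc (τ : Bool) (P : ℂ × ℂ) (h : dn τ P ≠ 0) : cr P (iot τ (lc τ P)) = 0 := by
  cases τ
  · simp only [dn, Bool.false_eq_true, if_false] at h
    simp only [cr, iot, lc, Bool.false_eq_true, if_false]
    field_simp
    ring
  · simp only [dn, if_true] at h
    simp only [cr, iot, lc, if_true]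
    field_simp
    ring

theorem iot_lc (τ : Bool) (c : ℂ) (h : dn τ (c, 1) ≠ 0) :
    ((c, 1) : ℂ × ℂ) = dn τ (c, 1) • iot τ (lc τ (c, 1)) := by
  cases τ
  · simp only [dn, Bool.false_eq_true, if_false] at h
    simp only [dn, iot, lc, Bool.false_eq_true, if_false]
    refine Prod.ext ?_ ?_
    · simp
    · simp [h]
  · simp [dn, iot, lc]

theorem lc_smul (τ : Bool) (a : ℂ) (ha : a ≠ 0) (P : ℂ × ℂ) : lc τ (a • P) = lc τ P := by
  cases τ
  · simp only [lc, Bool.false_eq_true, if_false, Prod.smul_fst, Prod.smul_snd, smul_eq_mul]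
    exact mul_div_mul_left _ _ ha
  · simp only [lc, if_true, Prod.smul_fst, Prod.smul_snd, smul_eq_mul]
    exact mul_div_mul_left _ _ ha


section main

variable {d k : ℕ}

/-- the critical point in the chart -/
noncomputable def ze (τ : Bool) (c : (Fin k → ℂ) → ℂ) (s : Fin k → ℂ) : ℂ := lc τ (c s, 1)

/-- the image -/
noncomputable def PP (X : (Fin k → ℂ) → CV d) (τ : Bool) (c : (Fin k → ℂ) → ℂ)
    (q : (Fin k → ℂ) × ℂ) : ℂ × ℂ := hF (X q.1) (iot τ (ze τ c q.1 + q.2))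

/-- the nonvanishing factor of the derivative -/
noncomputable def HH' (X : (Fin k → ℂ) → CV d) (c : Fin k → (Fin k → ℂ) → ℂ) (m : Fin k → ℕ)
    (l : Fin k) (τ τ' : Bool) (q : (Fin k → ℂ) × ℂ) : ℂ :=
  sg τ * sg τ' * (wr (X q.1) (1, 0) * ((sg τ * dn τ (c l q.1, 1)) ^ m l *
    ∏ i ∈ Finset.univ.erase l, cr (iot τ (ze τ (c l) q.1 + q.2)) (c i q.1, 1) ^ m i)) /
    ((d : ℂ) * dn τ' (PP X τ (c l) q) ^ 2)

theorem ze_diff {τ : Bool} {c : (Fin k → ℂ) → ℂ} {s : Fin k → ℂ} (hc : DifferentiableAt ℂ c s)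
    (h : dn τ (c s, 1) ≠ 0) : DifferentiableAt ℂ (ze τ c) s := by
  have h1 : DifferentiableAt ℂ (fun s => ((c s, 1) : ℂ × ℂ)) s := hc.prodMk (differentiableAt_const _)
  exact lc_diff τ h1 h

theorem PP_diff {X : (Fin k → ℂ) → CV d} {τ : Bool} {c : (Fin k → ℂ) → ℂ}
    {q : (Fin k → ℂ) × ℂ} (hX : DifferentiableAt ℂ X q.1) (hc : DifferentiableAt ℂ c q.1)
    (h : dn τ (c q.1, 1) ≠ 0) : DifferentiableAt ℂ (PP X τ c) q := by
  have h0 : DifferentiableAt ℂ (fun q : (Fin k → ℂ) × ℂ => ze τ c q.1) q :=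
    DifferentiableAt.comp (g := ze τ c) (f := fun q : (Fin k → ℂ) × ℂ => q.1) q (ze_diff hc h)
      differentiableAt_fst
  have h1 : DifferentiableAt ℂ (fun q : (Fin k → ℂ) × ℂ => ze τ c q.1 + q.2) q :=
    h0.add differentiableAt_snd
  have h2 := iot_diff τ h1
  have h3 : DifferentiableAt ℂ (fun q : (Fin k → ℂ) × ℂ => X q.1) q :=
    DifferentiableAt.comp (g := X) (f := fun q : (Fin k → ℂ) × ℂ => q.1) q hX differentiableAt_fst
  have h4 : Differentiable ℂ (fun q : CV d × (ℂ × ℂ) => hF q.1 q.2) :=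
    (hF_contDiff d 1).differentiable (by norm_num)
  exact DifferentiableAt.comp (g := fun q : CV d × (ℂ × ℂ) => hF q.1 q.2)
    (f := fun q : (Fin k → ℂ) × ℂ => (X q.1, iot τ (ze τ c q.1 + q.2))) q (h4 _) (h3.prodMk h2)

theorem HH_cont {X : (Fin k → ℂ) → CV d} {c : Fin k → (Fin k → ℂ) → ℂ} {m : Fin k → ℕ}
    {l : Fin k} {τ τ' : Bool} {q : (Fin k → ℂ) × ℂ} (hX : DifferentiableAt ℂ X q.1)
    (hc : ∀ i, DifferentiableAt ℂ (c i) q.1) (h : dn τ (c l q.1, 1) ≠ 0)
    (hd : (d : ℂ) ≠ 0) (hP : dn τ' (PP X τ (c l) q) ≠ 0) :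
    ContinuousAt (HH' X c m l τ τ') q := by
  have h0 : DifferentiableAt ℂ (fun q : (Fin k → ℂ) × ℂ => ze τ (c l) q.1) q :=
    DifferentiableAt.comp (g := ze τ (c l)) (f := fun q : (Fin k → ℂ) × ℂ => q.1) q
      (ze_diff (hc l) h) differentiableAt_fst
  have h1 : DifferentiableAt ℂ (fun q : (Fin k → ℂ) × ℂ => ze τ (c l) q.1 + q.2) q :=
    h0.add differentiableAt_snd
  have h2 := (iot_diff τ h1).continuousAt
  have h3 : DifferentiableAt ℂ (fun q : (Fin k → ℂ) × ℂ => X q.1) q :=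
    DifferentiableAt.comp (g := X) (f := fun q : (Fin k → ℂ) × ℂ => q.1) q hX differentiableAt_fst
  have hci : ∀ i, ContinuousAt (fun q : (Fin k → ℂ) × ℂ => c i q.1) q := fun i =>
    (DifferentiableAt.comp (g := c i) (f := fun q : (Fin k → ℂ) × ℂ => q.1) q (hc i)
      differentiableAt_fst).continuousAt
  have h4 : Continuous (fun q : CV d × (ℂ × ℂ) => wr q.1 q.2) := (wr_contDiff d 1).continuous
  have hW : ContinuousAt (fun q : (Fin k → ℂ) × ℂ => wr (X q.1) (1, 0)) q :=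
    ContinuousAt.comp (g := fun q : CV d × (ℂ × ℂ) => wr q.1 q.2)
      (f := fun q : (Fin k → ℂ) × ℂ => (X q.1, ((1 : ℂ), (0 : ℂ)))) h4.continuousAt
      (h3.continuousAt.prodMk continuousAt_const)
  have hcr : ∀ i, ContinuousAt (fun q : (Fin k → ℂ) × ℂ =>
      cr (iot τ (ze τ (c l) q.1 + q.2)) (c i q.1, 1)) q := by
    intro i
    unfold cr
    exact (h2.fst.mul continuousAt_const).sub (h2.snd.mul (hci i))
  have hdn : ContinuousAt (fun q : (Fin k → ℂ) × ℂ => dn τ (c l q.1, 1)) q := by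
    have h5 : DifferentiableAt ℂ (fun q : (Fin k → ℂ) × ℂ => ((c l q.1, 1) : ℂ × ℂ)) q :=
      (DifferentiableAt.comp (g := c l) (f := fun q : (Fin k → ℂ) × ℂ => q.1) q (hc l)
        differentiableAt_fst).prodMk (differentiableAt_const _)
    exact (dn_diff τ h5).continuousAt
  have hPc := (dn_diff τ' (PP_diff hX (hc l) h)).continuousAt
  unfold HH'
  refine ContinuousAt.div ?_ ?_ ?_
  · refine continuousAt_const.mul (hW.mul ((ContinuousAt.pow (continuousAt_const.mul hdn) _).mul ?_))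
    exact tendsto_finsetProd _ fun i _ => (hcr i).pow _
  · exact continuousAt_const.mul (hPc.pow 2)
  · exact mul_ne_zero hd (pow_ne_zero 2 hP)

theorem GG_deriv (hD : S_DER) (hd : 2 ≤ d) {X : (Fin k → ℂ) → CV d} {c₀ : Fin k → ℂ}
    {c : Fin k → (Fin k → ℂ) → ℂ} {m : Fin k → ℕ} {x₀ : CV d} (hfac : Fac x₀ k c₀ m)
    {l : Fin k} {τ τ' : Bool} {s : Fin k → ℂ} {t : ℂ}
    (hf : ∀ ζ : ℂ, wr (X s) (ζ, 1) = wr (X s) (1, 0) * ∏ i, (ζ - c i s) ^ m i)
    (h : dn τ (c l s, 1) ≠ 0) (hP : dn τ' (PP X τ (c l) (s, t)) ≠ 0) :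
    wr (X s) (iot τ (ze τ (c l) s + t)) = wr (X s) (1, 0) * (t ^ m l *
      ((sg τ * dn τ (c l s, 1)) ^ m l *
        ∏ i ∈ Finset.univ.erase l, cr (iot τ (ze τ (c l) s + t)) (c i s, 1) ^ m i)) ∧
    HasDerivAt (fun t : ℂ => GG (X s) τ τ' (ze τ (c l) s + t))
      (t ^ m l * HH' X c m l τ τ' (s, t)) t := by
  have h1 := wr_iot (X s) hd (fun i => c i s) m hfac.deg hf τ (ze τ (c l) s + t)
  have h2 : ∏ i, cr (iot τ (ze τ (c l) s + t)) (c i s, 1) ^ m i = t ^ m l *
      ((sg τ * dn τ (c l s, 1)) ^ m l *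
        ∏ i ∈ Finset.univ.erase l, cr (iot τ (ze τ (c l) s + t)) (c i s, 1) ^ m i) := by
    rw [← Finset.mul_prod_erase _ _ (Finset.mem_univ l), cr_iot τ _ _ h]
    unfold ze
    rw [add_sub_cancel_left, mul_pow]
    ring
  have h3 := h1.trans (by rw [h2])
  refine ⟨h3, ?_⟩
  have h4 := (hD d k τ τ' (ze τ (c l) s + t) hd).1 (X s) hP
  have h5 : HasDerivAt (fun t : ℂ => ze τ (c l) s + t) 1 t := by
    simpa using (hasDerivAt_id t).const_add (ze τ (c l) s)
  have h6 := h4.comp t h5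
  refine h6.congr_deriv ?_
  rw [mul_one, h3]
  unfold HH' PP
  simp only
  ring

theorem dn_smul (τ : Bool) (a : ℂ) (P : ℂ × ℂ) : dn τ (a • P) = a * dn τ P := by
  cases τ <;> simp [dn]

/-- the statement for one critical point and one chart -/
def One (x₀ : CV d) (c₀ : Fin k → ℂ) (m : Fin k → ℕ) (X : (Fin k → ℂ) → CV d)
    (c : Fin k → (Fin k → ℂ) → ℂ) (l : Fin k) (τ : Bool) (η B : ℝ) : Prop :=
  ∀ (p : ℂ × ℂ) (w : (Fin k → ℂ) → ℂ) (y r K : ℝ), tau p = τ → p ≠ 0 →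
    cho p (c₀ l, 1) ≤ η → 0 < y → y ≤ η →
    y ^ (m l + 1) = ‖w 0 - cv x₀ X (c₀ l) (c l) 0‖ → 0 < r → 1 ≤ K →
    B * K * r ≤ y ^ (m l + 1) →
    (∀ s ∈ ball (0 : Fin k → ℂ) r, ∀ s' ∈ ball (0 : Fin k → ℂ) r,
      ‖w s - w s'‖ ≤ K * ‖s - s'‖) →
    ∃ q : (Fin k → ℂ) → ℂ,
      ‖q 0 - zc p‖ ≤ B * (y + cho p (c₀ l, 1)) ∧ y ≤ B * ‖q 0 - zc p‖ ∧
      (∀ s ∈ ball (0 : Fin k → ℂ) r, ∀ s' ∈ ball (0 : Fin k → ℂ) r,
        y ^ m l * ‖q s - q s'‖ ≤ B * K * ‖s - s'‖) ∧
      ∀ s ∈ ball (0 : Fin k → ℂ) r, wr (X s) (iot (tau p) (q s)) ≠ 0 ∧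
        cr (hF (X s) (iot (tau p) (q s))) (iot (tau (qo x₀ (c₀ l) 1)) (w s)) = 0

theorem root1 (hD : S_DER) (hd : 2 ≤ d) {x₀ : CV d} {c₀ : Fin k → ℂ} {m : Fin k → ℕ}
    {X : (Fin k → ℂ) → CV d} {c : Fin k → (Fin k → ℂ) → ℂ} {ρ : ℝ} (hnd : ND x₀)
    (hw0 : wr x₀ (1, 0) ≠ 0) (hfac : Fac x₀ k c₀ m) (hfam : Fami x₀ k c₀ m X c ρ)
    (l : Fin k) (τ : Bool) : ∃ η > (0 : ℝ), ∃ B ≥ (1 : ℝ), One x₀ c₀ m X c l τ η B := by
  by_cases hdn : dn τ (c₀ l, 1) = 0
  · -- the point is far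
    refine ⟨1 / 2, by norm_num, 1, le_rfl, ?_⟩
    intro p w y r K hτ hp hcho
    exfalso
    have h1 := cr_eq_cho hp (pt_ne (c₀ l))
    rw [hτ] at h1
    cases τ
    · have hc : c₀ l = 0 := by simpa [dn] using hdn
      rw [hc] at h1 hcho
      have e1 : cr (iot false (zc p)) ((0 : ℂ), 1) = 1 := by simp [cr, iot]
      have e2 : N2 ((0 : ℂ), 1) = 1 := by simp [N2]
      rw [e1, e2, norm_one, mul_one] at h1
      have h2 : Real.sqrt (1 + ‖zc p‖ ^ 2) ≤ 3 / 2 := by
        rw [Real.sqrt_le_left (by norm_num)]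
        have h3 : ‖zc p‖ ≤ 1 := zc_le
        have h4 : ‖zc p‖ ^ 2 ≤ 1 := pow_le_one₀ (norm_nonneg _) h3
        linarith
      have h3 : cho p (0, 1) * Real.sqrt (1 + ‖zc p‖ ^ 2) ≤ 1 / 2 * (3 / 2) :=
        mul_le_mul hcho h2 (Real.sqrt_nonneg _) (by norm_num)
      linarith
    · simp [dn] at hdn
  · have hd0 : (d : ℂ) ≠ 0 := by
      have : d ≠ 0 := by omega
      exact_mod_cast this
    have hρ := hfam.ρ0
    have hX0 : DifferentiableAt ℂ X 0 := hfam.dif.differentiableAt (ball_mem_nhds _ hρ)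
    have hc0 : ∀ i, DifferentiableAt ℂ (c i) 0 := fun i =>
      (hfam.cdf i).differentiableAt (ball_mem_nhds _ hρ)
    set τ' : Bool := tau (qo x₀ (c₀ l) 1) with hτ'
    have hqo : qo x₀ (c₀ l) 1 = hF x₀ (c₀ l, 1) := rfl
    have hP0 : hF x₀ (c₀ l, 1) ≠ 0 := fun h => pt_ne (c₀ l) (hnd _ h)
    have hdnc : dn τ (c l 0, 1) ≠ 0 := by rw [hfam.c0]; exact hdn
    -- the image of the critical point in the chart
    have hPv : ∀ s : Fin k → ℂ, dn τ (c l s, 1) ≠ 0 →
        hF (X s) (c l s, 1) = dn τ (c l s, 1) ^ d • PP X τ (c l) (s, 0) := by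
      intro s hs
      unfold PP ze
      simp only
      rw [add_zero, ← hF_smul, ← iot_lc τ _ hs]
    have hPP0 : dn τ' (PP X τ (c l) (0, 0)) ≠ 0 := by
      intro h
      have h1 := hPv 0 hdnc
      have h2 : dn τ' (hF (X 0) (c l 0, 1)) = 0 := by rw [h1, dn_smul, h, mul_zero]
      rw [hfam.at0, hfam.c0] at h2
      exact dn_ne hP0 h2
    have hH0 : HH' X c m l τ τ' (0, 0) ≠ 0 := by
      unfold HH'
      refine div_ne_zero ?_ (mul_ne_zero hd0 (pow_ne_zero 2 hPP0))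
      refine mul_ne_zero (mul_ne_zero (sg_ne _) (sg_ne _)) (mul_ne_zero ?_ (mul_ne_zero ?_ ?_))
      · simp only [hfam.at0]; exact hw0
      · exact pow_ne_zero _ (mul_ne_zero (sg_ne _) hdnc)
      · refine Finset.prod_ne_zero_iff.2 fun i hi => pow_ne_zero _ ?_
        intro h
        have hil : i ≠ l := (Finset.mem_erase.1 hi).1
        have h1 : cr (c l 0, 1) (c i 0, 1) = 0 := by
          rw [iot_lc τ _ hdnc, cr_smul_left]
          simp only [add_zero] at h
          unfold ze at h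
          rw [h, mul_zero]
        rw [hfam.c0, hfam.c0] at h1
        simp only [cr, mul_one, one_mul, sub_eq_zero] at h1
        exact hil (hfac.inj h1).symm
    -- a neighbourhood
    have hev : ∀ᶠ q : (Fin k → ℂ) × ℂ in 𝓝 (0, 0), q.1 ∈ ball (0 : Fin k → ℂ) ρ ∧
        dn τ (c l q.1, 1) ≠ 0 ∧ dn τ' (PP X τ (c l) q) ≠ 0 ∧ HH' X c m l τ τ' q ≠ 0 := by
      have e1 : ∀ᶠ q : (Fin k → ℂ) × ℂ in 𝓝 (0, 0), q.1 ∈ ball (0 : Fin k → ℂ) ρ :=
        continuous_fst.continuousAt.eventually (ball_mem_nhds _ hρ)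
      have e2 : ∀ᶠ q : (Fin k → ℂ) × ℂ in 𝓝 (0, 0), dn τ (c l q.1, 1) ≠ 0 := by
        have h5 : DifferentiableAt ℂ (fun q : (Fin k → ℂ) × ℂ => ((c l q.1, 1) : ℂ × ℂ)) (0, 0) :=
          (DifferentiableAt.comp (g := c l) (f := fun q : (Fin k → ℂ) × ℂ => q.1)
            ((0, 0) : (Fin k → ℂ) × ℂ) (hc0 l) differentiableAt_fst).prodMk
            (differentiableAt_const _)
        exact (dn_diff τ h5).continuousAt.eventually_ne hdnc
      have e3 := (dn_diff τ' (PP_diff (q := (0, 0)) hX0 (hc0 l) hdnc)).continuousAt.eventually_ne hPP0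
      have e4 := (HH_cont (m := m) (τ' := τ') (q := (0, 0)) hX0 hc0 hdnc hd0 hPP0).eventually_ne hH0
      filter_upwards [e1, e2, e3, e4] with q h1 h2 h3 h4
      exact ⟨h1, h2, h3, h4⟩
    obtain ⟨R, hR, hRU⟩ := Metric.eventually_nhds_iff.1 hev
    have hU : ∀ s : Fin k → ℂ, ‖s‖ < R → ∀ t : ℂ, ‖t‖ < R → s ∈ ball (0 : Fin k → ℂ) ρ ∧
        dn τ (c l s, 1) ≠ 0 ∧ dn τ' (PP X τ (c l) (s, t)) ≠ 0 ∧ HH' X c m l τ τ' (s, t) ≠ 0 := by
      intro s hs t ht
      refine hRU (y := (s, t)) ?_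
      rw [Prod.dist_eq, dist_zero_right, dist_zero_right]
      exact max_lt hs ht
    set U : Set ((Fin k → ℂ) × ℂ) := ball (0 : Fin k → ℂ) R ×ˢ ball (0 : ℂ) R with hUdef
    have hUo : IsOpen U := isOpen_ball.prod isOpen_ball
    have hUm : ∀ q ∈ U, q.1 ∈ ball (0 : Fin k → ℂ) ρ ∧
        dn τ (c l q.1, 1) ≠ 0 ∧ dn τ' (PP X τ (c l) q) ≠ 0 ∧ HH' X c m l τ τ' q ≠ 0 := by
      intro q hq
      exact hU q.1 (by simpa using hq.1) q.2 (by simpa using hq.2)
    set f : (Fin k → ℂ) × ℂ → ℂ := fun q => lc τ' (PP X τ (c l) q) with hf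
    have hXat : ∀ s ∈ ball (0 : Fin k → ℂ) ρ, DifferentiableAt ℂ X s := fun s hs =>
      hfam.dif.differentiableAt (isOpen_ball.mem_nhds hs)
    have hcat : ∀ i, ∀ s ∈ ball (0 : Fin k → ℂ) ρ, DifferentiableAt ℂ (c i) s := fun i s hs =>
      (hfam.cdf i).differentiableAt (isOpen_ball.mem_nhds hs)
    have hfd : DifferentiableOn ℂ f U := by
      intro q hq
      obtain ⟨h1, h2, h3, -⟩ := hUm q hq
      exact (lc_diff τ' (PP_diff (hXat _ h1) (hcat l _ h1) h2) h3).differentiableWithinAt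
    have hzd : DifferentiableOn ℂ (fun q : (Fin k → ℂ) × ℂ => ze τ (c l) q.1) U := by
      intro q hq
      obtain ⟨h1, h2, -, -⟩ := hUm q hq
      exact (DifferentiableAt.comp (g := ze τ (c l)) (f := fun q : (Fin k → ℂ) × ℂ => q.1) q
        (ze_diff (hcat l _ h1) h2) differentiableAt_fst).differentiableWithinAt
    set K0 : Set ((Fin k → ℂ) × ℂ) :=
      closedBall (0 : Fin k → ℂ) (R / 2) ×ˢ closedBall (0 : ℂ) (R / 2) with hK0
    have hKc : IsCompact K0 := (isCompact_closedBall _ _).prod (isCompact_closedBall _ _)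
    have hKv : Convex ℝ K0 := (convex_closedBall _ _).prod (convex_closedBall _ _)
    have hKU : K0 ⊆ U := by
      intro q hq
      refine ⟨closedBall_subset_ball (by linarith) hq.1, closedBall_subset_ball (by linarith) hq.2⟩
    obtain ⟨L, hL0, hL⟩ := Pool.Agent.H295.HY211.lip hUo hfd hKc hKv hKU
    obtain ⟨Lz, hLz0, hLz⟩ := Pool.Agent.H295.HY211.lip hUo hzd hKc hKv hKU
    have hK0m : ∀ s : Fin k → ℂ, ‖s‖ < R / 2 → ∀ t : ℂ, ‖t‖ < R / 2 → (s, t) ∈ K0 := by
      intro s hs t ht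
      exact ⟨by rw [mem_closedBall_zero_iff]; exact hs.le, by rw [mem_closedBall_zero_iff]; exact ht.le⟩
    have hnorm : ∀ (s s' : Fin k → ℂ) (t : ℂ), ‖((s, t) : (Fin k → ℂ) × ℂ) - (s', t)‖ = ‖s - s'‖ := by
      intro s s' t
      rw [Prod.mk_sub_mk, sub_self, Prod.norm_mk, norm_zero]
      exact max_eq_left (norm_nonneg _)
    have hLs : ∀ s : Fin k → ℂ, ‖s‖ < R / 2 → ∀ s' : Fin k → ℂ, ‖s'‖ < R / 2 → ∀ t : ℂ,
        ‖t‖ < R / 2 → ‖f (s, t) - f (s', t)‖ ≤ L * ‖s - s'‖ := by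
      intro s hs s' hs' t ht
      have := hL _ (hK0m s hs t ht) _ (hK0m s' hs' t ht)
      rwa [hnorm] at this
    have hR2 : 0 < R / 2 := by linarith
    obtain ⟨η₀, hη₀, hη₀R, B₀, hB₀, hroot⟩ := abs_root (E := Fin k → ℂ) (m l + 1)
      (by have := hfac.pos l; omega) (fun s t => f (s, t) - f (s, 0))
      (fun s t => HH' X c m l τ τ' (s, t)) (R / 2) (2 * L) hR2 (by linarith)
      (fun s _ => sub_self _)
      (by
        intro s hs t ht
        rw [mem_ball_zero_iff] at hs ht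
        obtain ⟨h1, h2, h3, -⟩ := hU s (by linarith) t (by linarith)
        have h4 := (GG_deriv (τ' := τ') (t := t) hD hd hfac (hfam.fac s h1) h2 h3).2
        rw [Nat.add_sub_cancel]
        exact h4.sub_const _)
      (HH_cont (m := m) (τ' := τ') (q := (0, 0)) hX0 hc0 hdnc hd0 hPP0) hH0
      (by
        intro s hs s' hs' t ht
        rw [mem_ball_zero_iff] at hs hs' ht
        have h1 := hLs s hs s' hs' t ht
        have h2 := hLs s hs s' hs' 0 (by rw [norm_zero]; exact hR2)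
        have e : f (s, t) - f (s, 0) - (f (s', t) - f (s', 0)) =
            (f (s, t) - f (s', t)) - (f (s, 0) - f (s', 0)) := by ring
        rw [e]
        refine (norm_sub_le _ _).trans ?_
        linarith)
    have hcv : ∀ s : Fin k → ℂ, ‖s‖ < R → cv x₀ X (c₀ l) (c l) s = f (s, 0) := by
      intro s hs
      obtain ⟨-, h2, -, -⟩ := hU s hs 0 (by rw [norm_zero]; exact hR)
      unfold cv
      rw [hPv s h2, lc_smul _ _ (pow_ne_zero _ h2)]
    set C : ℝ := Real.sqrt (2 * N2 (c₀ l, 1)) / ‖dn τ (c₀ l, 1)‖ with hC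
    have hC0 : 0 ≤ C := by positivity
    set B : ℝ := B₀ * (1 + L) + Lz + C with hB
    have hB₀L : B₀ ≤ B₀ * (1 + L) := by nlinarith
    have hBB : B₀ ≤ B := by rw [hB]; linarith
    refine ⟨min η₀ (1 / 1), lt_min hη₀ (by norm_num), B, by linarith, ?_⟩
    intro p w y r K hτ hp hcho hy hyη hyT hr hK hBKr hwl
    have hyη₀ : y ≤ η₀ := hyη.trans (min_le_left _ _)
    have hy1 : y ≤ 1 := by
      have := hyη.trans (min_le_right _ _)
      linarith
    have hyM : y ^ (m l + 1) ≤ y := by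
      calc y ^ (m l + 1) ≤ y ^ 1 := pow_le_pow_of_le_one hy.le hy1 (by omega)
        _ = y := pow_one y
    have hKr : 0 < K * r := by positivity
    have hB1 : 1 ≤ B := by linarith
    have hrR : r ≤ R / 2 := by
      have h1 : 1 * (K * r) ≤ B * (K * r) := mul_le_mul_of_nonneg_right hB1 hKr.le
      have h2 : 1 * r ≤ K * r := mul_le_mul_of_nonneg_right hK hr.le
      linarith
    obtain ⟨t, ht1, ht2, ht3⟩ := hroot (fun s => w s - f (s, 0)) y r ((1 + L) * K)
      (zc p - ze τ (c l) 0) hy hyη₀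
      (by rw [hyT, hcv 0 (by rw [norm_zero]; exact hR)]) hr (by nlinarith)
      (by
        have h1 : B₀ * (1 + L) ≤ B := by rw [hB]; linarith
        have h2 : B₀ * (1 + L) * (K * r) ≤ B * (K * r) := mul_le_mul_of_nonneg_right h1 hKr.le
        calc B₀ * ((1 + L) * K) * r = B₀ * (1 + L) * (K * r) := by ring
          _ ≤ B * (K * r) := h2
          _ = B * K * r := by ring
          _ ≤ _ := hBKr)
      (by
        intro s hs s' hs'
        have h1 := hwl s hs s' hs'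
        rw [mem_ball_zero_iff] at hs hs'
        have h2 := hLs s (by linarith) s' (by linarith) 0 (by rw [norm_zero]; exact hR2)
        have e : w s - f (s, 0) - (w s' - f (s', 0)) = (w s - w s') - (f (s, 0) - f (s', 0)) := by
          ring
        rw [e]
        refine (norm_sub_le _ _).trans ?_
        have h3 : L * ‖s - s'‖ ≤ L * K * ‖s - s'‖ := by
          have : L * 1 ≤ L * K := mul_le_mul_of_nonneg_left hK hL0
          rw [mul_one] at this
          exact mul_le_mul_of_nonneg_right this (norm_nonneg _)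
        calc ‖w s - w s'‖ + ‖f (s, 0) - f (s', 0)‖ ≤ K * ‖s - s'‖ + L * K * ‖s - s'‖ := by linarith
          _ = (1 + L) * K * ‖s - s'‖ := by ring)
    have h0r : (0 : Fin k → ℂ) ∈ ball (0 : Fin k → ℂ) r := mem_ball_self hr
    refine ⟨fun s => ze τ (c l) s + t s, ?_, ?_, ?_, ?_⟩
    · -- closeness
      obtain ⟨-, -, h1, -, -⟩ := ht3 0 h0r
      have h2 := cr_eq_cho hp (pt_ne (c₀ l))
      rw [hτ, cr_iot τ _ _ hdn, norm_mul, norm_mul, sg_norm, one_mul] at h2
      have hdn0 : 0 < ‖dn τ (c₀ l, 1)‖ := norm_pos_iff.2 hdn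
      have h3 : Real.sqrt ((1 + ‖zc p‖ ^ 2) * N2 (c₀ l, 1)) ≤ Real.sqrt (2 * N2 (c₀ l, 1)) := by
        refine Real.sqrt_le_sqrt (mul_le_mul_of_nonneg_right ?_ (Pool.Agent.H295.HY211.N2_pos (pt_ne _)).le)
        have h4 : ‖zc p‖ ^ 2 ≤ 1 := pow_le_one₀ (norm_nonneg _) zc_le
        linarith
      have h4 : ‖zc p - lc τ (c₀ l, 1)‖ ≤ C * cho p (c₀ l, 1) := by
        rw [hC, div_mul_eq_mul_div, le_div_iff₀ hdn0]
        calc ‖zc p - lc τ (c₀ l, 1)‖ * ‖dn τ (c₀ l, 1)‖ =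
              ‖dn τ (c₀ l, 1)‖ * ‖zc p - lc τ (c₀ l, 1)‖ := by ring
          _ = cho p (c₀ l, 1) * Real.sqrt ((1 + ‖zc p‖ ^ 2) * N2 (c₀ l, 1)) := h2
          _ ≤ cho p (c₀ l, 1) * Real.sqrt (2 * N2 (c₀ l, 1)) :=
            mul_le_mul_of_nonneg_left h3 (cho_nonneg _ _)
          _ = _ := by ring
      have e : ze τ (c l) 0 + t 0 - zc p = t 0 - (zc p - lc τ (c₀ l, 1)) := by
        unfold ze
        rw [hfam.c0]
        ring
      simp only [e]
      refine (norm_sub_le _ _).trans ?_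
      have h5 : B₀ * y ≤ B * y := mul_le_mul_of_nonneg_right hBB hy.le
      have h6 : C * cho p (c₀ l, 1) ≤ B * cho p (c₀ l, 1) := by
        refine mul_le_mul_of_nonneg_right ?_ (cho_nonneg _ _)
        rw [hB]
        have : 0 ≤ B₀ * (1 + L) := by linarith
        linarith
      linarith
    · have e : t 0 - (zc p - ze τ (c l) 0) = ze τ (c l) 0 + t 0 - zc p := by ring
      rw [e] at ht1
      exact ht1.trans (mul_le_mul_of_nonneg_right hBB (norm_nonneg _))
    · intro s hs s' hs'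
      have h1 := ht2 s hs s' hs'
      rw [Nat.add_sub_cancel] at h1
      rw [mem_ball_zero_iff] at hs hs'
      have h2 := hLz _ (hK0m s (by linarith) 0 (by rw [norm_zero]; exact hR2)) _
        (hK0m s' (by linarith) 0 (by rw [norm_zero]; exact hR2))
      rw [hnorm] at h2
      simp only at h2
      have e : ze τ (c l) s + t s - (ze τ (c l) s' + t s') =
          (ze τ (c l) s - ze τ (c l) s') + (t s - t s') := by ring
      simp only [e]
      have hym : y ^ m l ≤ 1 := pow_le_one₀ hy.le hy1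
      have hym0 : 0 ≤ y ^ m l := by positivity
      have h3 : y ^ m l * ‖ze τ (c l) s - ze τ (c l) s'‖ ≤ Lz * K * ‖s - s'‖ := by
        calc y ^ m l * ‖ze τ (c l) s - ze τ (c l) s'‖ ≤ 1 * ‖ze τ (c l) s - ze τ (c l) s'‖ :=
              mul_le_mul_of_nonneg_right hym (norm_nonneg _)
          _ = ‖ze τ (c l) s - ze τ (c l) s'‖ := one_mul _
          _ ≤ Lz * ‖s - s'‖ := h2
          _ ≤ Lz * K * ‖s - s'‖ := by
            have : Lz * 1 ≤ Lz * K := mul_le_mul_of_nonneg_left hK hLz0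
            rw [mul_one] at this
            exact mul_le_mul_of_nonneg_right this (norm_nonneg _)
      calc y ^ m l * ‖(ze τ (c l) s - ze τ (c l) s') + (t s - t s')‖
          ≤ y ^ m l * (‖ze τ (c l) s - ze τ (c l) s'‖ + ‖t s - t s'‖) :=
            mul_le_mul_of_nonneg_left (norm_add_le _ _) hym0
        _ ≤ Lz * K * ‖s - s'‖ + B₀ * ((1 + L) * K) * ‖s - s'‖ := by
            rw [mul_add]; exact add_le_add h3 h1
        _ = (B₀ * (1 + L) + Lz) * (K * ‖s - s'‖) := by ring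
        _ ≤ B * (K * ‖s - s'‖) := by
            refine mul_le_mul_of_nonneg_right ?_ (by positivity)
            rw [hB]; linarith
        _ = B * K * ‖s - s'‖ := by ring
    · intro s hs
      obtain ⟨h1, h2, h3, h4, h5⟩ := ht3 s hs
      have hsR : ‖s‖ < R := by linarith
      obtain ⟨g1, g2, g3, g4⟩ := hU s hsR (t s) (by linarith)
      have h6 := (GG_deriv (τ' := τ') (t := t s) hD hd hfac (hfam.fac s g1) g2 g3).1
      rw [hτ]
      refine ⟨?_, ?_⟩
      · simp only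
        rw [h6]
        have g5 := g4
        unfold HH' at g5
        have g6 := (div_ne_zero_iff.1 g5).1
        have g7 := right_ne_zero_of_mul g6
        simp only at g7
        refine mul_ne_zero (left_ne_zero_of_mul g7) (mul_ne_zero (pow_ne_zero _ h2) ?_)
        exact right_ne_zero_of_mul g7
      · have h7 : f (s, t s) = w s := by
          have : f (s, t s) - f (s, 0) = w s - f (s, 0) := h5
          linear_combination this
        have h8 := cr_lc τ' (PP X τ (c l) (s, t s)) g3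
        have h9 : lc τ' (PP X τ (c l) (s, t s)) = w s := h7
        rw [h9] at h8
        exact h8

end main

theorem t_ROOT (h : Pool.Agent.H211.HY.S_DER) : Pool.Agent.H207.BT.S_ROOT := by
  intro d k x₀ c₀ m X c ρ hd hnd hw0 hfac hfam
  have h1 : ∀ i : Fin k × Bool, ∃ η > (0 : ℝ), ∃ B ≥ (1 : ℝ), One x₀ c₀ m X c i.1 i.2 η B :=
    fun i => root1 h hd hnd hw0 hfac hfam i.1 i.2
  choose η hη B hB hone using h1
  set S : ℝ := 1 + ∑ i, (η i)⁻¹ with hS
  have hS0 : 0 < S := by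
    have : 0 ≤ ∑ i, (η i)⁻¹ := Finset.sum_nonneg fun i _ => (inv_pos.2 (hη i)).le
    linarith
  have hSi : ∀ i, S⁻¹ ≤ η i := by
    intro i
    rw [inv_le_comm₀ hS0 (hη i)]
    have h2 : (η i)⁻¹ ≤ ∑ j, (η j)⁻¹ := Finset.single_le_sum (f := fun j => (η j)⁻¹)
      (fun j _ => (inv_pos.2 (hη j)).le) (Finset.mem_univ i)
    linarith
  have hBi : ∀ i, B i ≤ 1 + ∑ j, B j := by
    intro i
    have h2 : B i ≤ ∑ j, B j := Finset.single_le_sum (f := fun j => B j)
      (fun j _ => zero_le_one.trans (hB j)) (Finset.mem_univ i)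
    linarith
  refine ⟨min ρ S⁻¹, lt_min hfam.ρ0 (inv_pos.2 hS0), min_le_left _ _, 1 + ∑ j, B j, ?_, ?_⟩
  · have : 0 ≤ ∑ j, B j := Finset.sum_nonneg fun j _ => zero_le_one.trans (hB j)
    linarith
  · intro p l w y r K hp hcho hy hyη hyT hr hK hBKr hwl
    have hKr : 0 < K * r := by positivity
    have hle : min ρ S⁻¹ ≤ η (l, tau p) := (min_le_right _ _).trans (hSi _)
    obtain ⟨q, h2, h3, h4, h5⟩ := hone (l, tau p) p w y r K rfl hp (hcho.trans hle) hy
      (hyη.trans hle) hyT hr hK (by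
        have h6 : B (l, tau p) * (K * r) ≤ (1 + ∑ j, B j) * (K * r) :=
          mul_le_mul_of_nonneg_right (hBi _) hKr.le
        calc B (l, tau p) * K * r = B (l, tau p) * (K * r) := by ring
          _ ≤ (1 + ∑ j, B j) * (K * r) := h6
          _ = (1 + ∑ j, B j) * K * r := by ring
          _ ≤ _ := hBKr) hwl
    refine ⟨q, ?_, ?_, ?_, h5⟩
    · refine h2.trans (mul_le_mul_of_nonneg_right (hBi _) ?_)
      exact add_nonneg hy.le (cho_nonneg _ _)
    · exact h3.trans (mul_le_mul_of_nonneg_right (hBi _) (norm_nonneg _))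
    · intro s hs s' hs'
      refine (h4 s hs s' hs').trans ?_
      have h6 : 0 ≤ K * ‖s - s'‖ := by positivity
      calc B (l, tau p) * K * ‖s - s'‖ = B (l, tau p) * (K * ‖s - s'‖) := by ring
        _ ≤ (1 + ∑ j, B j) * (K * ‖s - s'‖) := mul_le_mul_of_nonneg_right (hBi _) h6
        _ = (1 + ∑ j, B j) * K * ‖s - s'‖ := by ring

end Pool.Agent.H755.BT207
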